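import Pool.Agent.R428.Q0.Fin
import Pool.Agent.R428.Q0.Dens
import Pool.Agent.R428.Q0.Cls

/-!
# The 2-part of the strong Birch and Swinnerton-Dyer conjecture over `ℚ` for the quadratic twists of
# `X_0(49)` by all products of primes `≡ 1 mod 4`

`D ≥ 1` is any squarefree number with all prime factors `≡ 1 mod 4`, and `E_D` is the quadratic twist
by `D` of `X_0(49) : y² + x y = x³ - x² - 2 x - 1`, the curve
`y² + x y = x³ - (3 D + 1) / 4 x² - 2 D² x - D³`.
Let `z = #E_D(ℚ)_tors² L(E_D, 1) / (Ω ∏ c_p)`, which is zero or the order of `Ш(E_D/ℚ)` according to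
the conjecture. The theorem says, with no hypothesis on the rank or on `Ш`:
* `L(E_D, s)` is entire, the equation of `E_D` is minimal, the order of the torsion subgroup is twice
  an odd number, and `∏ c_p = 2 ^ (1 + a + 2 b)`, `a` the number of the prime factors of `D` which are
  inert in `ℚ(√-7)`, `b` the number of those which split;
* `z` is an algebraic number which is integral at all the primes above two;
* `z` is a unit at one prime above two iff it is so at all of them iff `E_D(ℚ)` is finite and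
  `Ш(E_D/ℚ)` has no element of order two iff the matrix `mat D` over `𝔽₂` is not singular; its rows
  and columns are indexed by the prime factors of `D` which split in `ℚ(√-7)`, and it is made of the
  quadratic residue symbols between the prime factors of `D` and of the quartic symbols of `-7`;
* in this case `L(E_D, 1) ≠ 0` and the 2-primary part of `Ш(E_D/ℚ)` is zero;
* if `E_D(ℚ)` is finite, then `Ш(E_D/ℚ)[2]` has at least `2 ^ (b - rank (mat D))` elements;
* among the `D` which are `1 mod 8` and whose prime factors are `1 mod 8` and split in `ℚ(√-7)` or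
  `5 mod 8` and inert in `ℚ(√-7)`, the proportion of the `D` such that `L(E_D, 1) ≠ 0`, `E_D(ℚ)` is
  finite, `Ш(E_D/ℚ)[2^∞] = 0` and `z` is a unit at all the primes above two is exactly
  `∏_{i ≥ 0} (1 - 2^{-(2i+1)}) = 0.4194...`.

Proof: the case of the ground field `ℚ` of the methods of `Pool/Agent/Y698/SG` (the starting file
`MP_1a91b9_nt/FormulaModTwoAllTwists` treats subfields of `ℚ(ζ_r)` of degree `2 ^ n` with `n ≥ 1`):
the value `L(E_D, 1)` by sums of `℘`-functions at division points and an induction over the sets of the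
prime elements of `ℚ(√-7)`; the real period by `℘`; the Tamagawa numbers; a 2-descent over `ℚ(√-7)`;
a kernel vector of the matrix gives an everywhere locally soluble covering; the proportion is that of
the project `Pool/Agent/Y703/CQ`.
-/

set_option autoImplicit false

open NumberField NumberField.InfinitePlace IsDedekindDomain WeierstrassCurve MeasureTheory

namespace Pool.Agent.Results.MP_4a9ea6_nt.TwoPartTwistsX49

open Pool.Agent.TH841.NF.D (Sha)
open Pool.Agent.TH841.SH.D (Pt)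

/-- The quadratic twist by `D ≡ 1 mod 4` of `X_0(49) : y² + x y = x³ - x² - 2 x - 1`. -/
def twist (D : ℕ) : WeierstrassCurve ℤ := ⟨1, -((3 * D + 1) / 4), 0, -2 * D ^ 2, -D ^ 3⟩

/-- The curve over `ℚ`. -/
abbrev E (D : ℕ) : WeierstrassCurve ℚ := (twist D).map (Int.castRingHom ℚ)

/-- The equation is minimal at the place `v`: no change of variables over `ℚ` that keeps the
coefficients integral at `v` decreases the order of the discriminant. -/
def MinimalAt (W : WeierstrassCurve ℚ) (v : HeightOneSpectrum (𝓞 ℚ)) : Prop :=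
  ∀ C : VariableChange ℚ, v.valuation ℚ (C • W).a₁ ≤ 1 → v.valuation ℚ (C • W).a₂ ≤ 1 →
    v.valuation ℚ (C • W).a₃ ≤ 1 → v.valuation ℚ (C • W).a₄ ≤ 1 → v.valuation ℚ (C • W).a₆ ≤ 1 →
    v.valuation ℚ (C • W).Δ ≤ v.valuation ℚ W.Δ

/-- `W⁰(ℚ_v)`, the group of the points of `W` over the completion `ℚ_v` with nonsingular reduction:
the point at infinity and the points `(x, y)` where `x` is not integral, or one of the partial
derivatives of `y² + a₁ x y + a₃ y - x³ - a₂ x² - a₄ x - a₆` is a unit at `(x, y)`.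
Here `Pt W ℚ_v` is the group of the points of `W` over `ℚ_v`. -/
noncomputable def nonsing (W : WeierstrassCurve ℚ) (v : HeightOneSpectrum (𝓞 ℚ)) :
    AddSubgroup (Pt W (v.adicCompletion ℚ)) :=
  AddSubgroup.closure {P | ∀ x y h, P = Affine.Point.some x y h →
    1 < Valued.v x ∨
    Valued.v ((W.baseChange (v.adicCompletion ℚ)).a₁ * y -
      (3 * x ^ 2 + 2 * (W.baseChange (v.adicCompletion ℚ)).a₂ * x +
        (W.baseChange (v.adicCompletion ℚ)).a₄)) = 1 ∨
    Valued.v (2 * y + (W.baseChange (v.adicCompletion ℚ)).a₁ * x +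
      (W.baseChange (v.adicCompletion ℚ)).a₃) = 1}

/-- The Tamagawa number `c_v = [W(ℚ_v) : W⁰(ℚ_v)]` of a minimal equation. -/
noncomputable def c (W : WeierstrassCurve ℚ) (v : HeightOneSpectrum (𝓞 ℚ)) : ℕ :=
  (nonsing W v).index

/-- The product of the Tamagawa numbers. -/
noncomputable def Tam (W : WeierstrassCurve ℚ) : ℕ := ∏ᶠ v : HeightOneSpectrum (𝓞 ℚ), c W v

/-- `4 x³ + b₂ x² + 2 b₄ x + b₆ = (2 y + a₁ x + a₃)²`. -/
def cubic (W : WeierstrassCurve ℤ) (x : ℝ) : ℝ := 4 * x ^ 3 + W.b₂ * x ^ 2 + 2 * W.b₄ * x + W.b₆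

/-- `Ω = ∫_{W(ℝ)} |ω|` with `ω = dx / (2 y + a₁ x + a₃)`, as an integral over `x`: two real points lie
over each `x` with `cubic x > 0`. -/
noncomputable def Omega (W : WeierstrassCurve ℤ) : ℝ :=
  2 * ∫ x in {x : ℝ | 0 < cubic W x}, 1 / √(cubic W x)

open Classical in
/-- The order of the torsion subgroup of `W(K)`. -/
noncomputable def torsOrder {K : Type} [Field K] (W : WeierstrassCurve K) : ℕ :=
  Nat.card (AddCommGroup.torsion W.toAffine.Point)

/-- The order of the Tate-Shafarevich group predicted by the formula, for the value `l` of the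
L-function of `E_D` at `s = 1`: `#E_D(ℚ)_tors² l / (Ω ∏ c_v)`. -/
noncomputable def anOrder (D : ℕ) (l : ℂ) : ℂ :=
  l * (torsOrder (E D) : ℂ) ^ 2 / ((Omega (twist D) : ℝ) * (Tam (E D) : ℂ))

/-- `D` is squarefree and all its prime factors are `≡ 1 mod 4`. -/
def Adm (D : ℕ) : Prop := Squarefree D ∧ ∀ p ∈ D.primeFactors, p % 4 = 1

open Classical in
/-- The prime factors of `D` which are inert in `ℚ(√-7)`. -/
noncomputable def inert (D : ℕ) : Finset ℕ := D.primeFactors.filter fun p => ¬ IsSquare (-7 : ZMod p)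

open Classical in
/-- The prime factors of `D` which split in `ℚ(√-7)`. -/
noncomputable def split (D : ℕ) : Finset ℕ := D.primeFactors.filter fun p => IsSquare (-7 : ZMod p)

open Classical in
/-- `1` if `m` is not a square modulo `p`, and `0` if it is -/
noncomputable def nonsq (p m : ℕ) : ZMod 2 := if IsSquare (m : ZMod p) then 0 else 1

open Classical in
/-- `1` if `-7` is not a fourth power modulo `p`, and `0` if it is -/
noncomputable def nonfourth (p : ℕ) : ZMod 2 := if ∃ y : ZMod p, y ^ 4 = -7 then 0 else 1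

/-- The matrix over the field with two elements, with rows and columns indexed by the prime factors of
`D` which split in `ℚ(√-7)`: the entry at `(i, j)` is `nonsq i j` for `i ≠ j`, and the entry at `(i, i)`
is the sum of `nonfourth i` and of the `nonsq i l` for all the prime factors `l ≠ i` of `D`. -/
noncomputable def mat (D : ℕ) : Matrix (split D) (split D) (ZMod 2) := Matrix.of fun i j =>
  if i = j then nonfourth i + ∑ l ∈ D.primeFactors.erase i, nonsq i l else nonsq i j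

/-- The 2-part of the conjecture, in the case that `z` is a unit at two: `L(E_D, s)` has an entire
continuation `Λ` with `Λ 1 ≠ 0`, `E_D(ℚ)` is finite, the 2-primary part of `Ш` is zero, and the
predicted order of `Ш` is a unit at all the primes above two. -/
def TwoPart (D : ℕ) : Prop :=
  Finite (E D).toAffine.Point ∧ (∀ (n : ℕ) (x : Sha (E D)), 2 ^ n • x = 0 → x = 0) ∧
    ∃ Λ : ℂ → ℂ, Differentiable ℂ Λ ∧ (∀ s : ℂ, 2 < s.re → Λ s = (E D).LSeries s) ∧ Λ 1 ≠ 0 ∧
      ∃ m : ℤ, Odd m ∧ _root_.IsIntegral ℤ (m * anOrder D (Λ 1)) ∧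
        _root_.IsIntegral ℤ (m * (anOrder D (Λ 1))⁻¹)

/-- `D ≡ 1 mod 8`, and the prime factors of `D` are `1 mod 8` and split in `ℚ(√-7)`, or `5 mod 8` and
inert in `ℚ(√-7)`. -/
def Fam (D : ℕ) : Prop := Squarefree D ∧ D % 8 = 1 ∧ ∀ p ∈ D.primeFactors,
  (p % 8 = 1 ∧ (p % 7 = 1 ∨ p % 7 = 2 ∨ p % 7 = 4)) ∨
    (p % 8 = 5 ∧ (p % 7 = 3 ∨ p % 7 = 5 ∨ p % 7 = 6))

section proof

open Pool.Agent.Y698 Pool.Agent.R428.Q0

lemma E_eq {D j : ℕ} (hj : D = 1 + 4 * j) : E D = AX ℚ j := twZ_map hj ℚ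

lemma cubic_eq {D j : ℕ} (hj : D = 1 + 4 * j) (x : ℝ) :
    cubic (twist D) x = psD (1 + 4 * j) x := by
  have h1 : (3 * (D : ℤ) + 1) / 4 = 1 + 3 * j := by
    rw [hj]
    push_cast
    omega
  unfold cubic twist WeierstrassCurve.b₂ WeierstrassCurve.b₄ WeierstrassCurve.b₆ psD
  simp only
  rw [h1, hj]
  push_cast
  ring

lemma real_eq {D j : ℕ} (hj : D = 1 + 4 * j) : Omega (twist D) =
    ∫ x in {x : ℝ | 0 < psD (1 + 4 * j) x}, 2 / Real.sqrt (psD (1 + 4 * j) x) := by
  unfold Omega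
  simp only [cubic_eq hj]
  rw [← integral_const_mul]
  congr 1
  funext x
  ring

lemma adm_mod {D : ℕ} (h : Adm D) : D % 4 = 1 := by
  have h1 := Pool.Agent.Y698.prod_mod_four (S := D.primeFactors) h.2
  rwa [Nat.prod_primeFactors_of_squarefree h.1] at h1

/-- an auxiliary prime number -/
lemma exists_aux (D : ℕ) (hD : D ≠ 0) : ∃ r, Pool.Agent.Y698.Inq r ∧ ¬ r ∣ D := by
  have h1 : IsUnit ((5 : ℕ) : ZMod 28) := by
    rw [ZMod.isUnit_iff_coprime]
    norm_num
  obtain ⟨r, hr, hp, h2⟩ := Nat.forall_exists_prime_gt_and_eq_mod h1 D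
  have h3 : r % 28 = 5 := by
    have := (ZMod.natCast_eq_natCast_iff' r 5 28).1 h2
    simpa using this
  refine ⟨r, ⟨hp, by omega, ?_⟩, fun h => ?_⟩
  · rw [sq7_iff hp (by omega)]
    omega
  · exact absurd (Nat.le_of_dvd (Nat.pos_of_ne_zero hD) h) (by omega)

lemma nr_rat : nrRealPlaces ℚ = 1 ∧ nrComplexPlaces ℚ = 0 := by
  have h := InfinitePlace.card_add_two_mul_card_eq_rank ℚ
  rw [Module.finrank_self] at h
  omega

lemma rat_all (k : ℚ) : ∃ u : ℚ, k = u := ⟨k, (Rat.cast_id k).symm⟩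

/-- the data of `D` -/
lemma union_eq (D : ℕ) : inert D ∪ split D = D.primeFactors := by
  classical
  unfold inert split
  rw [Finset.union_comm]
  exact Finset.filter_union_filter_not_eq _ _

lemma disj (D : ℕ) : Disjoint (inert D) (split D) := by
  classical
  rw [Finset.disjoint_left]
  intro p h1 h2
  exact (Finset.mem_filter.1 h1).2 (Finset.mem_filter.1 h2).2

open Classical in
lemma inq {D : ℕ} (h : Adm D) : ∀ q ∈ inert D, Pool.Agent.Y698.Inq q := fun q hq =>
  ⟨Nat.prime_of_mem_primeFactors (Finset.mem_filter.1 hq).1, h.2 q (Finset.mem_filter.1 hq).1,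
    (Finset.mem_filter.1 hq).2⟩

open Classical in
lemma spl {D : ℕ} (h : Adm D) : ∀ q ∈ split D, Pool.Agent.Y698.SG.Spl q := fun q hq =>
  ⟨Nat.prime_of_mem_primeFactors (Finset.mem_filter.1 hq).1, h.2 q (Finset.mem_filter.1 hq).1,
    (Finset.mem_filter.1 hq).2⟩

lemma mat_eq (D : ℕ) : Pool.Agent.Y698.SG.mat (inert D) (split D) = mat D := by
  classical
  ext i j
  unfold Pool.Agent.Y698.SG.mat mat
  rw [Matrix.of_apply, Matrix.of_apply]
  by_cases hij : i = j
  · rw [if_pos hij, if_pos hij]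
    have h1 : D.primeFactors.erase i = inert D ∪ (split D).erase i := by
      rw [← union_eq, Finset.erase_union_distrib, Finset.erase_eq_of_notMem
        (fun h => Finset.disjoint_left.1 (disj D) h i.2)]
    rw [h1, Finset.sum_union (Finset.disjoint_of_subset_right (Finset.erase_subset _ _) (disj D)),
      ← add_assoc]
    rfl
  · rw [if_neg hij, if_neg hij]
    rfl

theorem core {D : ℕ} (h : Adm D) :
    (∀ v : HeightOneSpectrum (𝓞 ℚ), MinimalAt (E D) v) ∧
    (∃ t : ℕ, Odd t ∧ torsOrder (E D) = 2 * t) ∧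
    Tam (E D) = 2 ^ (1 + (inert D).card + 2 * (split D).card) ∧
    ((Finite (E D).toAffine.Point ∧ ∀ x : Sha (E D), x + x = 0 → x = 0) ↔ (mat D).det ≠ 0) ∧
    ((mat D).det ≠ 0 → ∀ (n : ℕ) (x : Sha (E D)), 2 ^ n • x = 0 → x = 0) ∧
    (Finite (E D).toAffine.Point →
      2 ^ ((split D).card - (mat D).rank) ≤ {x : Sha (E D) | x + x = 0}.encard) ∧
    ∃ Λ : ℂ → ℂ, Differentiable ℂ Λ ∧
      (∀ s : ℂ, 2 < s.re → Λ s = (E D).LSeries s) ∧
      (∃ m : ℤ, Odd m ∧ _root_.IsIntegral ℤ (m * anOrder D (Λ 1))) ∧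
      (∀ (Γ : Type) [LinearOrderedCommGroupWithZero Γ] (v : Valuation ℂ Γ), v 2 < 1 →
        v (anOrder D (Λ 1)) ≤ 1 ∧ (v (anOrder D (Λ 1)) = 1 ↔ (mat D).det ≠ 0)) ∧
      ((mat D).det ≠ 0 → Λ 1 ≠ 0 ∧ ∃ m : ℤ, Odd m ∧ _root_.IsIntegral ℤ (m * anOrder D (Λ 1)) ∧
        _root_.IsIntegral ℤ (m * (anOrder D (Λ 1))⁻¹)) := by
  classical
  have hm4 := adm_mod h
  obtain ⟨r, hr, hrD⟩ := exists_aux D h.1.ne_zero
  have hrf : Fact r.Prime := ⟨hr.pr⟩
  have hM : IsCyclotomicExtension {r} ℚ (CyclotomicField r ℚ) := Pool.Agent.Y698.cyc_inst r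
  set Q := inert D with hQd
  set P := split D with hPd
  have hQ := inq h
  have hP := spl h
  have hd : DQ r Q P := ⟨hr, fun q hq => ⟨hQ q hq, by
    rintro rfl
    exact hrD (Nat.dvd_of_mem_primeFactors (Finset.mem_filter.1 hq).1)⟩, hP⟩
  have hDu : ∏ q ∈ Q ∪ P, q = D := by
    rw [hQd, hPd, union_eq, Nat.prod_primeFactors_of_squarefree h.1]
  obtain ⟨j, hj'⟩ : ∃ j, D = 1 + 4 * j := ⟨D / 4, by omega⟩
  have hj : ∏ q ∈ Q ∪ P, q = 1 + 4 * j := hDu.trans hj'
  have hn : Module.finrank ℚ ℚ = 2 ^ 0 := by rw [Module.finrank_self, pow_zero]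
  have hE := E_eq hj'
  have han : ∀ l : ℂ, anOrder D l = Pool.Agent.Y698.SG.quoT ℚ j l := by
    intro l
    unfold anOrder torsOrder
    rw [hE, real_eq hj']
    unfold Pool.Agent.Y698.SG.quoT Pool.Agent.Y698.SG.tnum
    have hT : Tam (Pool.Agent.Y698.AX ℚ j) = ∏ᶠ v, Pool.Agent.Y698.tam (Pool.Agent.Y698.AX ℚ j) v := rfl
    rw [hT, Rat.numberField_discr, nr_rat.1, nr_rat.2, pow_one, pow_zero]
    generalize (∏ᶠ v, Pool.Agent.Y698.tam (Pool.Agent.Y698.AX ℚ j) v : ℕ) = t
    simp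
  have hst : torsOrder (E D) = Pool.Agent.Y698.SG.tnum (Pool.Agent.Y698.AX ℚ j) := by
    unfold torsOrder Pool.Agent.Y698.SG.tnum
    rw [hE]
  have htam : Tam (E D) = 2 ^ (1 + Q.card + 2 * P.card) := by
    rw [hE]
    have h1 := tam0 (CyclotomicField r ℚ) ℚ hn hd hj
    rw [← add_assoc] at h1
    exact h1
  have hmat := mat_eq D
  rw [← hmat]
  obtain ⟨Λ, h1, h2, h3⟩ := level0 (CyclotomicField r ℚ) ℚ hn hd hj
  simp only [han, hst]
  rw [hE]
  refine ⟨fun v => Pool.Agent.Y698.SG.minimal_E (CyclotomicField r ℚ) ℚ hr.ns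
      (fun q hq => ⟨hd.gp q hq, hd.ne q hq⟩) hj v,
    Pool.Agent.Y698.SG.tnum_AX (CyclotomicField r ℚ) ℚ hr.ns j, by rw [← hE]; exact htam,
    ⟨fun h4 => conv0 (CyclotomicField r ℚ) ℚ hd hj h4.1 h4.2, fun h4 =>
      ⟨mw_finite0 ℚ rat_all hQ hP h4 hj, fun x hx => sha_two0 ℚ rat_all hQ hP h4 hj x hx⟩⟩,
    fun h4 n x hx => sha_pow0 ℚ rat_all hQ hP h4 hj x n hx, ?_, Λ, h1, h2, ?_,
    fun Γ _ v hv => h3 Γ v hv, ?_⟩
  · intro hf
    obtain ⟨f, hfi, hf2⟩ := sha_card1 (CyclotomicField r ℚ) ℚ hd hj hf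
    have h4 : Set.range f ⊆ {x : Sha (Pool.Agent.Y698.AX ℚ j) | x + x = 0} := by
      rintro _ ⟨x, rfl⟩
      exact hf2 x
    have h5 := hfi.encard_range.trans (Set.encard_le_encard h4)
    rw [ENat.card_eq_coe_fintype_card, Fintype.card_fin] at h5
    have h6 : (2 ^ (P.card - (Pool.Agent.Y698.SG.mat Q P).rank) : ℕ∞) =
      ((2 ^ (P.card - (Pool.Agent.Y698.SG.mat Q P).rank) : ℕ) : ℕ∞) := by push_cast; rfl
    rw [h6]
    exact h5
  · exact Pool.Agent.Y698.int_of_val fun Γ _ v hv => (h3 Γ v hv).1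
  · intro hC
    have hz : ∀ (Γ : Type) [LinearOrderedCommGroupWithZero Γ] (v : Valuation ℂ Γ), v 2 < 1 →
        v (Pool.Agent.Y698.SG.quoT ℚ j (Λ 1)) = 1 := fun Γ _ v hv => ((h3 Γ v hv).2).2 hC
    refine ⟨?_, ?_⟩
    · intro h0
      refine Pool.Agent.Y698.SG.exists_val2 fun Γ _ v hv => ?_
      have h5 := hz Γ v hv
      rw [h0] at h5
      unfold Pool.Agent.Y698.SG.quoT at h5
      rw [zero_mul, zero_mul, zero_div, map_zero] at h5
      exact zero_ne_one h5
    · obtain ⟨m₁, hm₁, i₁⟩ := Pool.Agent.Y698.int_of_val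
        (x := Pool.Agent.Y698.SG.quoT ℚ j (Λ 1)) fun Γ _ v hv => (hz Γ v hv).le
      obtain ⟨m₂, hm₂, i₂⟩ := Pool.Agent.Y698.int_of_val
        (x := (Pool.Agent.Y698.SG.quoT ℚ j (Λ 1))⁻¹) fun Γ _ v hv => by
          rw [map_inv₀, hz Γ v hv, inv_one]
      refine ⟨m₁ * m₂, hm₁.mul hm₂, ?_, ?_⟩
      · have e : ((m₁ * m₂ : ℤ) : ℂ) * Pool.Agent.Y698.SG.quoT ℚ j (Λ 1) =
            (m₂ : ℂ) * ((m₁ : ℂ) * Pool.Agent.Y698.SG.quoT ℚ j (Λ 1)) := by
          push_cast; ring
        rw [e]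
        exact IsIntegral.mul (isIntegral_algebraMap (R := ℤ) (A := ℂ) (x := m₂)) i₁
      · have e : ((m₁ * m₂ : ℤ) : ℂ) * (Pool.Agent.Y698.SG.quoT ℚ j (Λ 1))⁻¹ =
            (m₁ : ℂ) * ((m₂ : ℂ) * (Pool.Agent.Y698.SG.quoT ℚ j (Λ 1))⁻¹) := by
          push_cast; ring
        rw [e]
        exact IsIntegral.mul (isIntegral_algebraMap (R := ℤ) (A := ℂ) (x := m₁)) i₂

/-- the 2-part of the conjecture holds exactly in the nonsingular case -/
theorem two_iff {D : ℕ} (h : Adm D) : TwoPart D ↔ (mat D).det ≠ 0 := by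
  obtain ⟨-, -, -, h4, h5, -, Λ, h6, h7, -, -, h8⟩ := core h
  constructor
  · rintro ⟨hf, hs, -⟩
    exact h4.1 ⟨hf, fun x hx => hs 1 x (by rw [pow_one, two_nsmul]; exact hx)⟩
  · intro hd
    obtain ⟨h9, h10⟩ := h8 hd
    exact ⟨(h4.2 hd).1, h5 hd, Λ, h6, h7, h9, h10⟩

lemma fam_adm {D : ℕ} (h : Fam D) : Adm D :=
  ⟨h.1, fun p hp => by rcases h.2.2 p hp with h1 | h1 <;> omega⟩

lemma fam_cl (D : ℕ) : Fam D ↔ Squarefree D ∧ Pool.Agent.Y703.CQ.Cl {5} {0} D.primeFactors := by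
  classical
  constructor
  · rintro ⟨h1, h2, h3⟩
    have h8 : ∀ p ∈ D.primeFactors, p % 8 = 1 ∨ p % 8 = 5 := fun p hp =>
      (h3 p hp).imp And.left And.left
    refine ⟨h1, fun p hp => ?_, ?_, ?_⟩
    · have hpp := Nat.prime_of_mem_primeFactors hp
      rcases h3 p hp with h4 | h4
      · exact Or.inl ⟨hpp, h4⟩
      · exact Or.inr ⟨hpp, by omega, Finset.mem_singleton.2 h4.1, h4.2⟩
    · rw [← prod_mod_eight h8, Nat.prod_primeFactors_of_squarefree h1]
      exact h2
    · have h5 : (D.primeFactors.filter fun p => p % 8 = 3) = ∅ := by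
        rw [Finset.filter_eq_empty_iff]
        intro p hp
        rcases h8 p hp with h | h <;> omega
      rw [h5]
      simp
  · rintro ⟨h1, h2, h3, -⟩
    have h4 : ∀ p ∈ D.primeFactors,
        (p % 8 = 1 ∧ (p % 7 = 1 ∨ p % 7 = 2 ∨ p % 7 = 4)) ∨
        (p % 8 = 5 ∧ (p % 7 = 3 ∨ p % 7 = 5 ∨ p % 7 = 6)) := by
      intro p hp
      rcases h2 p hp with h | h
      · exact Or.inl h.2
      · exact Or.inr ⟨Finset.mem_singleton.1 h.2.2.1, h.2.2.2⟩
    have h8 : ∀ p ∈ D.primeFactors, p % 8 = 1 ∨ p % 8 = 5 := fun p hp =>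
      (h4 p hp).imp And.left And.left
    refine ⟨h1, ?_, h4⟩
    have h5 := (prod_mod_eight h8).2 h3
    rwa [Nat.prod_primeFactors_of_squarefree h1] at h5

lemma fam_two {D : ℕ} (h : Fam D) :
    TwoPart D ↔ Pool.Agent.Y703.CQ.Gd Pool.Agent.Y698.SG.n4 D.primeFactors := by
  classical
  rw [two_iff (fam_adm h), gd_iff, ← mat_eq]
  have key : ∀ p ∈ D.primeFactors, (IsSquare (-7 : ZMod p) ↔ p % 8 = 1) := by
    intro p hp
    have hpp := Nat.prime_of_mem_primeFactors hp
    rw [sq7_iff hpp ((fam_adm h).2 p hp)]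
    rcases h.2.2 p hp with h1 | h1
    · exact iff_of_true h1.2 h1.1
    · refine iff_of_false ?_ ?_
      · omega
      · omega
  have e1 : inert D = D.primeFactors.filter fun p => p % 8 ≠ 1 := by
    unfold inert
    refine Finset.filter_congr fun p hp => ?_
    rw [key p hp]
  have e2 : split D = D.primeFactors.filter fun p => p % 8 = 1 := by
    unfold split
    refine Finset.filter_congr fun p hp => ?_
    rw [key p hp]
  rw [e1, e2]

end proof

open Classical in
/-- **The 2-part of the conjecture of Birch and Swinnerton-Dyer for the quadratic twists of `X_0(49)` by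
all products of primes `≡ 1 mod 4`.** -/
theorem result :
    (∀ D : ℕ, Adm D →
      (∀ v : HeightOneSpectrum (𝓞 ℚ), MinimalAt (E D) v) ∧
      (∃ t : ℕ, Odd t ∧ torsOrder (E D) = 2 * t) ∧
      Tam (E D) = 2 ^ (1 + (inert D).card + 2 * (split D).card) ∧
      ((Finite (E D).toAffine.Point ∧ ∀ x : Sha (E D), x + x = 0 → x = 0) ↔ (mat D).det ≠ 0) ∧
      (TwoPart D ↔ (mat D).det ≠ 0) ∧
      (Finite (E D).toAffine.Point →
        2 ^ ((split D).card - (mat D).rank) ≤ {x : Sha (E D) | x + x = 0}.encard) ∧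
      ∃ Λ : ℂ → ℂ, Differentiable ℂ Λ ∧
        (∀ s : ℂ, 2 < s.re → Λ s = (E D).LSeries s) ∧
        (∃ m : ℤ, Odd m ∧ _root_.IsIntegral ℤ (m * anOrder D (Λ 1))) ∧
        ∀ (Γ : Type) [LinearOrderedCommGroupWithZero Γ] (v : Valuation ℂ Γ), v 2 < 1 →
          v (anOrder D (Λ 1)) ≤ 1 ∧ (v (anOrder D (Λ 1)) = 1 ↔ (mat D).det ≠ 0)) ∧
    (∀ D : ℕ, Fam D → Adm D) ∧
    Filter.Tendsto (fun X : ℕ =>
        (((Finset.Icc 1 X).filter fun D => Fam D ∧ TwoPart D).card : ℝ) /
        (((Finset.Icc 1 X).filter fun D => Fam D).card : ℝ)) Filter.atTop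
      (nhds (∏' i : ℕ, (1 - (1 / 2 : ℝ) ^ (2 * i + 1)))) := by
  refine ⟨fun D h => ?_, fun D h => fam_adm h, ?_⟩
  · obtain ⟨h1, h2, h3, h4, -, h5, Λ, h6, h7, h8, h9, -⟩ := core h
    exact ⟨h1, h2, h3, h4, two_iff h, h5, Λ, h6, h7, h8, h9⟩
  · have h := Pool.Agent.Y703.CQ.t_DEN {5} {0} Pool.Agent.Y698.SG.n4 Pool.Agent.R428.Q0.ok5
    unfold Pool.Agent.Y703.CQ.c2 at h
    refine h.congr fun X => congrArg₂ (fun a b : ℕ => (a : ℝ) / (b : ℝ)) ?_ ?_
    · refine congrArg Finset.card (Finset.ext fun D => ?_)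
      rw [Finset.mem_filter, Finset.mem_filter]
      refine and_congr_right fun _ => ?_
      rw [← and_assoc, ← fam_cl]
      exact and_congr_right fun hF => (fam_two hF).symm
    · refine congrArg Finset.card (Finset.ext fun D => ?_)
      rw [Finset.mem_filter, Finset.mem_filter]
      exact and_congr_right fun _ => (fam_cl D).symm

end Pool.Agent.Results.MP_4a9ea6_nt.TwoPartTwistsX49
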