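import Pool.Agent.Y17.X.TwoP
import Pool.Agent.Y614.XF.Perd
import Pool.Agent.R494.FG3

/-!
# The 2-part of the conjecture of Birch and Swinnerton-Dyer for all the twists of `X_0(14)` by a given
# number times the products of primes of a bounded interval with a prescribed graph

`E_D` is the quadratic twist by `D` of the modular curve `X_0(14) : y² + x y + y = x³ + 4 x - 6`, which has
no complex multiplication, and `z = L(E_D, 1) #E_D(ℚ)_tors² / (Ω ∏ c_p)`, which according to the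
conjecture is zero or the order of `Ш(E_D/ℚ)`.

Let `N` be any integer of the class of `MP_4a9ea6_nt/TwoPartTwistsX14`: squarefree, positive or negative,
`1` modulo `4` and a square modulo `7`, not divisible by `3`, whose prime factors split completely in
`ℚ(i, √2, √-7)` or are inert in `ℚ(√2)` and in `ℚ(√-7)`. Let `m` be a multiple of `56` and of `N`, and
`q ≠ 3` a prime number `≡ 3 mod 8` which is inert in `ℚ(√-7)`, does not divide `m`, and is a square
modulo all the prime factors `≡ 1 mod 8` of `N`. The theorem: for every `k` there is a constant `C` such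
that for every class `r mod m`, prime to `m`, `1 mod 8`, a square modulo `7` and modulo all the prime
factors of `N`, there is `M = N` or `M = - q N` such that for infinitely many `n` and for **every** graph
`G` on `k` vertices there are primes `p_1 < ⋯ < p_k` of the class in `[n, n + C]` such that `p_j` is a
nonsquare modulo `p_i` exactly when `{i, j}` is an edge of `G`, and for all the `2 ^ k` numbers
`D = M ∏_{i ∈ T} p_i ≠ 1`:
* the equation of `E_D` is a global minimal one, `L(E_D, s)` is entire, `#E_D(ℚ)_tors` is twice an odd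
  number, and `z` is the product of a rational number which is a unit at `2` and of the square of an
  integer `y`;
* `y` is odd iff `E_D(ℚ)` is finite and `Ш(E_D/ℚ)[2] = 0`, iff the 2-part of the conjecture holds with
  `z` a unit at two (and then `L(E_D, 1) ≠ 0` and `Ш(E_D/ℚ)[2^∞] = 0`), iff it does so for the curve `E_N`
  (or `N = 1`) **and** the subgraph of `G` induced on `T` has an odd number of rooted spanning forests.

Proof: the criterion of helper428 for the curves `E_D`, which rests on the joint work of many helpers; a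
theorem of Maynard's type with prescribed quadratic symbols (`R494/QR8`), applied to the primes coloured
by the divisibility by `8` of the number of the points of `X_0(14)`; the matrix of quadratic symbols has
two blocks, the one of `E_N` and the one of the graph.
-/

set_option autoImplicit false
set_option linter.style.haveILetI false

open WeierstrassCurve MeasureTheory Filter Topology

namespace Pool.Agent.Results.MP_4a9ea6_nt.ResidueGraphTwistsX14

open Pool.Agent.TH841.SH.D (Sha)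

open scoped Classical

/-- The quadratic twist `E_D` of `X_0(14)` by `D ≡ 1` modulo `4`:
`y² + x y + y = x³ + ((D - 1)/4) x² + ((9 D² - 1)/2) x - (23 D³ + 1)/4`.  For `D = 1` this is
`y² + x y + y = x³ + 4 x - 6`. -/
def twist (D : ℤ) : WeierstrassCurve ℤ :=
  ⟨1, (D - 1) / 4, 1, (9 * D ^ 2 - 1) / 2, -((23 * D ^ 3 + 1) / 4)⟩

/-- The curve given by the equation of `W` over the ring `R`. -/
abbrev base (W : WeierstrassCurve ℤ) (R : Type) [CommRing R] : WeierstrassCurve R :=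
  W.map (Int.castRingHom R)

/-- `W` is a global minimal equation: `Δ ≠ 0` and `|Δ|` is minimal among the integral equations of the
same curve over `ℚ`. -/
def Minimal (W : WeierstrassCurve ℤ) : Prop :=
  W.Δ ≠ 0 ∧ ∀ (W' : WeierstrassCurve ℤ) (C : VariableChange ℚ), C • base W ℚ = base W' ℚ →
    |W.Δ| ≤ |W'.Δ|

/-- The number of the affine points modulo `p`. -/
noncomputable def pts (W : WeierstrassCurve ℤ) (p : ℕ) : ℕ :=
  Nat.card {P : ZMod p × ZMod p // (base W (ZMod p)).toAffine.Equation P.1 P.2}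

/-- `a_p = p + 1 - #W(𝔽_p)`, the points counted with the point at infinity. -/
noncomputable def a (W : WeierstrassCurve ℤ) (p : ℕ) : ℤ := p - pts W p

/-- `L` is the L-function of the minimal equation `W`: it is entire, and for `Re s > 3/2` it is given by
the Euler product with the factors `(1 - a_p p^(-s) + p^(1 - 2 s))⁻¹` if `p` does not divide `Δ` and
`(1 - a_p p^(-s))⁻¹` otherwise. -/
def IsL (W : WeierstrassCurve ℤ) (L : ℂ → ℂ) : Prop :=
  Differentiable ℂ L ∧ ∀ s : ℂ, 3 / 2 < s.re →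
    HasProd (fun p : Nat.Primes => (1 - (a W p : ℂ) * ((p : ℕ) : ℂ) ^ (-s) +
      (if ((p : ℕ) : ℤ) ∣ W.Δ then 0 else ((p : ℕ) : ℂ) ^ (1 - 2 * s)))⁻¹) (L s)

/-- The point `P` of `W` over `ℚ_p` reduces to a singular point of the curve modulo `p`: the coordinates
are integral and both partial derivatives of `y² + a₁ x y + a₃ y - x³ - a₂ x² - a₄ x - a₆` are in the
maximal ideal. -/
def SingularReduction (W : WeierstrassCurve ℤ) (p : ℕ) [Fact p.Prime]
    (P : (base W ℚ_[p]).toAffine.Point) : Prop :=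
  ∃ x y h, P = Affine.Point.some x y h ∧ ‖x‖ ≤ 1 ∧ ‖y‖ ≤ 1 ∧
    ‖W.a₁ * y - (3 * x ^ 2 + 2 * W.a₂ * x + W.a₄)‖ < 1 ∧ ‖2 * y + W.a₁ * x + W.a₃‖ < 1

/-- `c p` is the Tamagawa number `[W(ℚ_p) : W⁰(ℚ_p)]` for all primes `p`, where `W⁰(ℚ_p)` is the subgroup
of the points which do not have singular reduction; it is `1` if `p` does not divide `Δ`. -/
def IsTamagawa (W : WeierstrassCurve ℤ) (c : ℕ → ℕ) : Prop :=
  ∀ (p : ℕ) [Fact p.Prime], (∃ H : AddSubgroup (base W ℚ_[p]).toAffine.Point,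
    (∀ P, P ∈ H ↔ ¬ SingularReduction W p P) ∧ H.index = c p) ∧ (¬ (p : ℤ) ∣ W.Δ → c p = 1)

/-- The product of the Tamagawa numbers. -/
noncomputable def Tam (W : WeierstrassCurve ℤ) (c : ℕ → ℕ) : ℕ := ∏ p ∈ W.Δ.natAbs.primeFactors, c p

/-- `4 x³ + b₂ x² + 2 b₄ x + b₆ = (2 y + a₁ x + a₃)²`. -/
def cubic (W : WeierstrassCurve ℤ) (x : ℝ) : ℝ := 4 * x ^ 3 + W.b₂ * x ^ 2 + 2 * W.b₄ * x + W.b₆

/-- `Ω = ∫_{W(ℝ)} |ω|` with `ω = dx / (2 y + a₁ x + a₃)`, as an integral over `x`: two real points lie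
over each `x` with `cubic x > 0`. -/
noncomputable def Omega (W : WeierstrassCurve ℤ) : ℝ :=
  2 * ∫ x in {x : ℝ | 0 < cubic W x}, 1 / √(cubic W x)

/-- The order of the torsion subgroup of `W(ℚ)`. -/
noncomputable def torsOrder (W : WeierstrassCurve ℤ) : ℕ :=
  Nat.card (AddCommGroup.torsion (base W ℚ).toAffine.Point)

/-- The order of the Tate-Shafarevich group predicted by the formula in rank zero, for the value `l` of
the L-function at `s = 1` and the Tamagawa numbers `c`: `l #W(ℚ)_tors² / (Ω ∏ c_p)`. -/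
noncomputable def anOrder (W : WeierstrassCurve ℤ) (l : ℂ) (c : ℕ → ℕ) : ℂ :=
  l * (torsOrder W : ℂ) ^ 2 / ((Omega W : ℝ) * (Tam W c : ℂ))

/-- The 2-part of the strong conjecture of Birch and Swinnerton-Dyer for `W` over `ℚ`, in the case that
the predicted order of `Ш` is a unit at two: `W` is minimal, `L(W, s)` is entire, `L(W, 1) ≠ 0`, `W(ℚ)`
is finite, the 2-primary part of `Ш(W/ℚ)` is zero, and the predicted order of `Ш` is a rational number
which is a unit at two. -/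
def TwoPart (W : WeierstrassCurve ℤ) : Prop :=
  Minimal W ∧ Finite (base W ℚ).toAffine.Point ∧
  (∀ (n : ℕ) (x : Sha (base W ℚ)), 2 ^ n • x = 0 → x = 0) ∧
  ∃ (L : ℂ → ℂ) (c : ℕ → ℕ) (z : ℚ), IsL W L ∧ L 1 ≠ 0 ∧ IsTamagawa W c ∧ 0 < Tam W c ∧
    0 < Omega W ∧ 0 < torsOrder W ∧ anOrder W (L 1) c = z ∧ z ≠ 0 ∧ padicValRat 2 z = 0

/-- The group `E_D(ℚ)` is finite and `Ш(E_D/ℚ)` has no element of order two. -/
def NoSelmer (D : ℤ) : Prop :=
  Finite (base (twist D) ℚ).toAffine.Point ∧ ∀ x : Sha (base (twist D) ℚ), 2 • x = 0 → x = 0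

/-! ### The class of the twists -/

/-- primes which split completely in `ℚ(i, √2, √-7)` -/
def Split (p : ℕ) : Prop := p.Prime ∧ p % 8 = 1 ∧ (p % 7 = 1 ∨ p % 7 = 2 ∨ p % 7 = 4)

/-- primes inert in `ℚ(√2)` and in `ℚ(√-7)` -/
def Inert (q : ℕ) : Prop :=
  q.Prime ∧ (q % 8 = 3 ∨ q % 8 = 5) ∧ (q % 7 = 3 ∨ q % 7 = 5 ∨ q % 7 = 6)

/-- The class of the discriminants `D`, positive and negative. -/
def Adm (D : ℤ) : Prop := Squarefree D ∧ D % 4 = 1 ∧ (D % 7 = 1 ∨ D % 7 = 2 ∨ D % 7 = 4) ∧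
  ∀ p : ℕ, p.Prime → (p : ℤ) ∣ D → p ≠ 3 ∧ (Split p ∨ Inert p)

/-- The identity plus the Laplacian of the subgraph of `G` induced on `T`, modulo two. Its determinant is
the number of the rooted spanning forests of this subgraph modulo two. -/
noncomputable def forest {k : ℕ} (G : SimpleGraph (Fin k)) (T : Finset (Fin k)) :
    Matrix T T (ZMod 2) :=
  Matrix.of fun i j => if i = j then 1 + ((T.filter fun l => G.Adj i l).card : ZMod 2)
    else if G.Adj i j then 1 else 0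

/-- The statement on the curve `E_D`, with the condition `P` which decides on the 2-part. -/
def Profile (D : ℤ) (P : Prop) : Prop :=
  Minimal (twist D) ∧
  (∃ (L : ℂ → ℂ) (c : ℕ → ℕ) (w : ℚ) (y : ℤ), IsL (twist D) L ∧ IsTamagawa (twist D) c ∧
    0 < Tam (twist D) c ∧ (∃ t : ℕ, Odd t ∧ torsOrder (twist D) = 2 * t) ∧ 0 < Omega (twist D) ∧
    w ≠ 0 ∧ padicValRat 2 w = 0 ∧ anOrder (twist D) (L 1) c = ((w * (y : ℚ) ^ 2 : ℚ) : ℂ) ∧
    (Odd y ↔ NoSelmer D)) ∧
  (NoSelmer D ↔ P) ∧ (TwoPart (twist D) ↔ P)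

section proof

/-- the prime factors `≡ 1 mod 8` of `D` -/
def S (D : ℤ) : Finset ℕ := D.natAbs.primeFactors.filter fun p => p % 8 = 1

/-- The matrix over `𝔽₂` with rows and columns indexed by `S D`: off the diagonal the entry at `(p, p')`
is `1` if `p'` is not a square modulo `p` and `0` otherwise; on the diagonal it is the number of the
prime factors of `D` different from `p` which are not squares modulo `p`, plus `1` if the number of the
points of `X_0(14)` modulo `p` is not divisible by `8`. -/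
noncomputable def R (D : ℤ) : Matrix (S D) (S D) (ZMod 2) := Matrix.of fun i j =>
  if i = j then
    (((D.natAbs.primeFactors.filter fun r : ℕ => r ≠ (i : ℕ) ∧
      ¬ IsSquare (r : ZMod (i : ℕ))).card : ZMod 2) +
        if 8 ∣ pts (twist 1) (i : ℕ) + 1 then 0 else 1)
  else if IsSquare (((j : ℕ)) : ZMod (i : ℕ)) then 0 else 1

/-- The statement for all `D` of the class. -/
def Criterion (D : ℤ) : Prop :=
  Minimal (twist D) ∧
  (∃ (L : ℂ → ℂ) (c : ℕ → ℕ) (w : ℚ) (y : ℤ), IsL (twist D) L ∧ IsTamagawa (twist D) c ∧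
    (∃ t : ℕ, Odd t ∧ Tam (twist D) c =
      2 ^ (1 + (D.natAbs.primeFactors \ S D).card + 2 * (S D).card) * t) ∧
    (∃ t : ℕ, Odd t ∧ torsOrder (twist D) = 2 * t) ∧ 0 < Omega (twist D) ∧
    w ≠ 0 ∧ padicValRat 2 w = 0 ∧ anOrder (twist D) (L 1) c = ((w * (y : ℚ) ^ 2 : ℚ) : ℂ) ∧
    (Odd y ↔ NoSelmer D)) ∧
  (NoSelmer D ↔ (R D).det ≠ 0) ∧
  ((R D).det ≠ 0 ↔ TwoPart (twist D))

open Pool.Agent.Y687.MQ (AdmD matD of_admD SP IP disc matD_eq matT_iff det_ind union_SP)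
open Pool.Agent.Y700 (WM EQ)

lemma twist_eq (D : ℤ) : twist D = WM D := rfl

lemma adm_iff (D : ℤ) : Adm D ↔ AdmD D := Iff.rfl

lemma cubic_eq (W : WeierstrassCurve ℤ) (x : ℝ) : cubic W x = Pool.Agent.Y700.psi W x := rfl

lemma omega_eq (W : WeierstrassCurve ℤ) : Omega W = Pool.Agent.Y700.Omega W := by
  unfold Omega Pool.Agent.Y700.Omega
  rw [← integral_const_mul]
  show ∫ x in {x : ℝ | 0 < Pool.Agent.Y700.psi W x}, 2 * (1 / √(Pool.Agent.Y700.psi W x)) = _
  congr 1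
  funext x
  rw [mul_one_div]

lemma omega_pos {D : ℤ} (h : D % 4 = 1) : 0 < Omega (twist D) := by
  obtain ⟨s, L, Op, Om, hOp, hOm, g2, g3, hLt, -, -⟩ := Pool.Agent.Y700.exists_symb2'
  have h1 := Pool.Agent.Y614.XF.perd L Op Om hOp hOm g2 g3 hLt D h
  have h2 : Omega (twist D) = Pool.Agent.Y682.XF.realPeriod (WM D) := rfl
  have hD : (D : ℝ) ≠ 0 := by
    have : D ≠ 0 := by omega
    exact_mod_cast this
  rw [h2, h1]
  refine div_pos (mul_pos two_pos ?_) (Real.sqrt_pos.2 (abs_pos.2 hD))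
  split_ifs
  · exact hOp
  · exact hOm

/-- the Tamagawa numbers -/
noncomputable def cT (W : WeierstrassCurve ℤ) (p : ℕ) : ℕ :=
  if h : p.Prime then (haveI := Fact.mk h; Pool.Agent.Y700.tam W p) else 1

lemma isTam (W : WeierstrassCurve ℤ) : IsTamagawa W (cT W) := by
  intro p hp
  have hc : cT W p = Pool.Agent.Y700.tam W p := by
    unfold cT
    rw [dif_pos hp.out]
  refine ⟨⟨Pool.Agent.Y700.E0 W p, fun P => ?_, by rw [hc]; rfl⟩, fun h => ?_⟩
  · rw [Pool.Agent.Y809.BSD14.t_E0 W p P]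
    constructor
    · rintro h ⟨x, y, h1, rfl, h2⟩
      exact h x y h1 rfl h2
    · intro h x y h1 h2 h3
      exact h ⟨x, y, h1, h2, h3⟩
  · rw [hc]
    exact Pool.Agent.Y809.BSD14.t_TGOOD W p h

lemma tam_eq (W : WeierstrassCurve ℤ) : Tam W (cT W) = Pool.Agent.Y700.tamProd W := rfl

lemma card_IP (D : ℤ) : D.natAbs.primeFactors \ S D = IP D := by
  ext p
  unfold S IP
  rw [Finset.mem_sdiff, Finset.mem_filter, Finset.mem_filter]
  tauto

lemma tam_val {D : ℤ} (h : AdmD D) : ∃ t : ℕ, Odd t ∧ Tam (twist D) (cT (twist D)) =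
    2 ^ (1 + (D.natAbs.primeFactors \ S D).card + 2 * (S D).card) * t := by
  obtain ⟨hP, hT, hcl, hD⟩ := of_admD h
  have hsP : ∀ q ∈ SP D, q.Prime ∧ q ≠ 2 ∧ q ≠ 7 ∧ IsSquare (-7 : ZMod q) := by
    intro q hq
    have h7 := (hP q hq).2.2
    have h8 := (hP q hq).2.1
    haveI : Fact q.Prime := ⟨(hP q hq).1⟩
    exact ⟨(hP q hq).1, by omega, by omega,
      (Pool.Agent.Y687.sq_seven q (by omega) (by omega)).2 h7⟩
  have hsT : ∀ q ∈ IP D, q.Prime ∧ q ≠ 2 ∧ q ≠ 7 ∧ ¬ IsSquare (-7 : ZMod q) := by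
    intro q hq
    have h7 := (hT q hq).2.2
    have h8 := (hT q hq).2.1
    haveI : Fact q.Prime := ⟨(hT q hq).1⟩
    exact ⟨(hT q hq).1, by omega, by omega, (hT q hq).nsq7⟩
  have hdisj : Disjoint (SP D) (IP D) := by
    unfold SP IP
    exact Finset.disjoint_filter_filter_not _ _ _
  have habs : D.natAbs = (∏ q ∈ SP D, q) * ∏ q ∈ IP D, q := by
    rw [← Finset.prod_union hdisj, union_SP]
    exact (Nat.prod_primeFactors_of_squarefree (Int.squarefree_natAbs.2 h.1)).symm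
  obtain ⟨o, ho, ht⟩ := Pool.Agent.Z705.f_TAM Pool.Agent.Y809.BSD14.t_E0
    Pool.Agent.Y809.BSD14.t_TIN Pool.Agent.Y809.BSD14.t_TSP Pool.Agent.Y641.BSD14.t2
    Pool.Agent.Y641.BSD14.t7 (SP D) (IP D) hsP hsT D habs h.2.1 h.1
  refine ⟨o, ho, ?_⟩
  have e : 1 + (IP D).card + 2 * (S D).card = (IP D).card + 2 * (SP D).card + 1 := by
    have : (S D).card = (SP D).card := rfl
    omega
  rw [tam_eq, twist_eq, card_IP, e]
  exact ht

lemma tors_val {D : ℤ} (h : D % 4 = 1) : ∃ t : ℕ, Odd t ∧ torsOrder (twist D) = 2 * t := by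
  have hM0 : D ≠ 0 := by omega
  have hM2 : 0 < D ^ 2 := by positivity
  have hab : (13 * D) ^ 2 - 4 * (128 * D ^ 2) < 0 := by nlinarith
  obtain ⟨k, hk, a3⟩ := Pool.Agent.Z702.f_TORS (13 * D) (128 * D ^ 2)
    (by positivity) hab.ne (Pool.Agent.Z702.ns_b hM0) (Pool.Agent.Z702.ns_ab hM0)
  rw [(Pool.Agent.Z702.trn_WM Pool.Agent.Z702.f_TRN h).2.2] at a3
  refine ⟨k, hk, ?_⟩
  rw [twist_eq]
  unfold torsOrder
  convert a3

lemma isL_iff (W : WeierstrassCurve ℤ) (f : ℂ → ℂ) : IsL W f ↔ Pool.Agent.Y700.IsL W f := Iff.rfl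

lemma minimal_iff (W : WeierstrassCurve ℤ) : Minimal W ↔ Pool.Agent.W97.MT.IsGloballyMinimal W :=
  Iff.rfl

lemma two_iff {A : Type} [AddCommGroup A] : (∀ x : A, 2 • x = 0 → x = 0) ↔
    ∀ x : A, x + x = 0 → x = 0 := by
  refine forall_congr' fun x => ?_
  rw [two_nsmul]

lemma R_eq {D : ℤ} (hD : AdmD D) : R D = matD D := by
  have hS := (of_admD hD).1
  unfold R matD
  ext i j
  simp only [Matrix.of_apply]
  have hi := hS i.1 i.2
  have h8 := hi.2.1
  have h7 := hi.2.2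
  have e : pts (twist 1) (i : ℕ) + 1 = Pool.Agent.Y687.NN 1 (i : ℕ) := by
    have h1 := Pool.Agent.Z705.cnt_affCountZ (D := 1) hi.1 (by omega) (by omega) (by norm_num) (by
      intro h
      rw [Int.natAbs_one, Nat.dvd_one] at h
      exact hi.1.one_lt.ne' h)
    unfold Pool.Agent.Y687.NN
    rw [Nat.cast_one, h1]
    rfl
  rw [e]
  rfl

lemma R_det {D : ℤ} (hD : AdmD D) : (R D).det ≠ 0 ↔ (matD D).det ≠ 0 := by
  rw [R_eq hD]
  exact Iff.rfl

/-- the class: the value -/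
theorem value {D : ℤ} (h : AdmD D) (h1 : D ≠ 1) :
    Pool.Agent.W97.MT.IsGloballyMinimal (WM D) ∧ (∃ f, Pool.Agent.Y700.IsL (WM D) f) ∧ ∃ y : ℤ,
      (Odd y ↔ (Finite (EQ (WM D)).toAffine.Point ∧ ∀ x : Sha (EQ (WM D)), x + x = 0 → x = 0)) ∧
      ∀ f, Pool.Agent.Y700.IsL (WM D) f → (y ≠ 0 → f 1 ≠ 0) ∧ ∃ w : ℚ, w ≠ 0 ∧ padicValRat 2 w = 0 ∧
        f 1 = (((w : ℝ) * (y : ℝ) ^ 2 * (Pool.Agent.Y700.Omega (WM D) *
          Pool.Agent.Y700.tamProd (WM D) /
          (Nat.card (AddCommGroup.torsion (EQ (WM D)).toAffine.Point) : ℝ) ^ 2) : ℝ) : ℂ) := by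
  obtain ⟨hP, hT, hcl, hD⟩ := of_admD h
  have h4 := h.2.1
  have hne : (SP D ∪ IP D).Nonempty := by
    rw [union_SP, Nat.nonempty_primeFactors]
    omega
  have e : (Pool.Agent.Z700.pr (SP D) : ℤ) * Pool.Agent.Y687.DD (IP D) = D := hD
  exact Pool.Agent.Z705.full_both Pool.Agent.Z702.f_COC Pool.Agent.Z702.f_LOT
    Pool.Agent.Z702.f_COB Pool.Agent.Z702.f_TOR Pool.Agent.Z702.f_LQ Pool.Agent.Z702.f_LG
    Pool.Agent.Z702.f_LP Pool.Agent.Z702.f_LIN Pool.Agent.Z702.f_TRN Pool.Agent.Z702.f_TORS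
    Pool.Agent.Z705.f_SELA Pool.Agent.Z705.f_SELB
    Pool.Agent.Y809.BSD14.t_E0 Pool.Agent.Y809.BSD14.t_TIN
    Pool.Agent.Y809.BSD14.t_TSP Pool.Agent.Y641.BSD14.t2 Pool.Agent.Y641.BSD14.t7
    Pool.Agent.Y248.BSD14.t Pool.Agent.Y814.BSD14.t_MIN Pool.Agent.Z705.f_OMEGA
    Pool.Agent.Z705.f_VAL Pool.Agent.Z705.f_TAM
    Pool.Agent.Z700.f_SYM Pool.Agent.Z705.f_DIAG Pool.Agent.Z705.f_IND Pool.Agent.Y17.N.f_BIL
    Pool.Agent.Y17.N.f_T8 Pool.Agent.Z705.f_IND3G
    Pool.Agent.Z705.f_INDQG hP hT hne ⟨hcl.2, fun h3 => absurd h3 hcl.1⟩ (WM D)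
    (by rw [e])

lemma noSelmer_iff {D : ℤ} : NoSelmer D ↔
    (Finite (EQ (WM D)).toAffine.Point ∧ ∀ x : Sha (EQ (WM D)), x + x = 0 → x = 0) :=
  and_congr Iff.rfl two_iff

lemma anOrder_eq {D : ℤ} {l : ℂ} {q : ℝ} (hΩ : 0 < Omega (twist D))
    (hT : 0 < Tam (twist D) (cT (twist D))) (ht : 0 < torsOrder (twist D))
    (hl : l = ((q * (Pool.Agent.Y700.Omega (WM D) * Pool.Agent.Y700.tamProd (WM D) /
      (Nat.card (AddCommGroup.torsion (EQ (WM D)).toAffine.Point) : ℝ) ^ 2) : ℝ) : ℂ)) :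
    anOrder (twist D) l (cT (twist D)) = (q : ℂ) := by
  have e1 : Pool.Agent.Y700.Omega (WM D) = Omega (twist D) := (omega_eq _).symm
  have e2 : Pool.Agent.Y700.tamProd (WM D) = Tam (twist D) (cT (twist D)) := rfl
  have e3 : Nat.card (AddCommGroup.torsion (EQ (WM D)).toAffine.Point) = torsOrder (twist D) := by
    rw [twist_eq]
    unfold torsOrder
    rfl
  rw [e1, e2, e3] at hl
  have h1 : (Omega (twist D) : ℂ) ≠ 0 := by exact_mod_cast hΩ.ne'
  have h2 : ((Tam (twist D) (cT (twist D)) : ℕ) : ℂ) ≠ 0 := by exact_mod_cast hT.ne'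
  have h3 : ((torsOrder (twist D) : ℕ) : ℂ) ≠ 0 := by exact_mod_cast ht.ne'
  unfold anOrder
  rw [hl]
  push_cast
  field_simp

theorem criterion {D : ℤ} (hD : Adm D) (h1 : D ≠ 1) : Criterion D := by
  have h := (adm_iff D).1 hD
  obtain ⟨hmin, ⟨f, hf⟩, y, hy, hv⟩ := value h h1
  obtain ⟨hv1, w, hw0, hw, hval⟩ := hv f hf
  obtain ⟨t, ht, htam⟩ := tam_val h
  obtain ⟨k, hk, htor⟩ := tors_val h.2.1
  have hΩ := omega_pos h.2.1
  have hT : 0 < Tam (twist D) (cT (twist D)) := by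
    rw [htam]
    exact Nat.mul_pos (pow_pos two_pos _) ht.pos
  have hto : 0 < torsOrder (twist D) := by
    rw [htor]
    exact Nat.mul_pos two_pos hk.pos
  have han : anOrder (twist D) (f 1) (cT (twist D)) = ((w * (y : ℚ) ^ 2 : ℚ) : ℂ) := by
    have := anOrder_eq (q := (w : ℝ) * (y : ℝ) ^ 2) hΩ hT hto hval
    rw [this]
    push_cast
    rfl
  have hdet : NoSelmer D ↔ (R D).det ≠ 0 := by
    rw [R_det h, ← Pool.Agent.Y17.X.twoP_iff h h1, noSelmer_iff]
    constructor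
    · rintro ⟨h2, h3⟩
      exact Pool.Agent.Y17.X.twoP_of h h1 h2 fun x hx => h3 x (by rwa [two_nsmul] at hx)
    · rintro ⟨-, h2, h3, -⟩
      exact ⟨h2, fun x hx => h3 1 x (by rwa [pow_one, two_nsmul])⟩
  refine ⟨hmin, ⟨f, cT (twist D), w, y, hf, isTam _, ⟨t, ht, htam⟩, ⟨k, hk, htor⟩, hΩ, hw0, hw, han,
    hy.trans noSelmer_iff.symm⟩, hdet, fun hd => ?_, fun hp => ?_⟩
  · have hns := hdet.2 hd
    have hyo : Odd y := hy.2 (noSelmer_iff.1 hns)
    have hy0 : y ≠ 0 := by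
      rintro rfl
      exact absurd hyo (by decide)
    have h2 := (Pool.Agent.Y17.X.twoP_iff h h1).2 ((R_det h).1 hd)
    refine ⟨hmin, hns.1, h2.2.2.1, f, cT (twist D), w * (y : ℚ) ^ 2, hf, hv1 hy0, isTam _, hT, hΩ,
      hto, han, mul_ne_zero hw0 (pow_ne_zero 2 (by exact_mod_cast hy0)), ?_⟩
    have hy2 : padicValRat 2 ((y : ℚ)) = 0 := by
      rw [padicValRat.of_int]
      have : padicValInt 2 y = 0 := by
        refine padicValInt.eq_zero_of_not_dvd ?_
        intro hd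
        have h5 := Int.odd_iff.1 hyo
        omega
      rw [this]
      rfl
    have : Fact (Nat.Prime 2) := ⟨Nat.prime_two⟩
    have hyq : (y : ℚ) ≠ 0 := by exact_mod_cast hy0
    rw [padicValRat.mul hw0 (pow_ne_zero 2 hyq), padicValRat.pow, hw, hy2]
    simp
  · refine hdet.1 ⟨hp.2.1, fun x hx => hp.2.2.1 1 x ?_⟩
    rwa [pow_one]

/-- the empty matrix -/
theorem det_mat_one : (matD 1).det ≠ 0 := by
  have : IsEmpty (SP 1) := by
    unfold SP
    rw [Int.natAbs_one, Nat.primeFactors_one, Finset.filter_empty]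
    infer_instance
  rw [Matrix.det_isEmpty]
  exact one_ne_zero

/-- the base -/
theorem base_iff {N : ℤ} (hN : Adm N) : (N = 1 ∨ TwoPart (twist N)) ↔ (matD N).det ≠ 0 := by
  by_cases h1 : N = 1
  · subst h1
    exact iff_of_true (Or.inl rfl) det_mat_one
  · rw [or_iff_right h1, ← R_det ((adm_iff N).1 hN)]
    exact (criterion hN h1).2.2.2.symm

theorem profile_of {D : ℤ} (hD : Adm D) (h1 : D ≠ 1) {P : Prop} (hP : (matD D).det ≠ 0 ↔ P) :
    Profile D P := by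
  obtain ⟨h2, ⟨L, c, w, y, h3, h4, ⟨t, ht, ht'⟩, h5, h6, h7, h8, h9, h10⟩, h11, h12⟩ :=
    criterion hD h1
  rw [R_det ((adm_iff D).1 hD)] at h11 h12
  refine ⟨h2, ⟨L, c, w, y, h3, h4, ?_, h5, h6, h7, h8, h9, h10⟩, h11.trans hP, h12.symm.trans hP⟩
  rw [ht']
  exact Nat.mul_pos (pow_pos two_pos _) ht.pos

end proof

/-- **The 2-part of the conjecture for all the twists of `X_0(14)` by a given number times the products
of primes of a bounded interval with any given graph of quadratic residues.** -/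
theorem result : ∀ (k : ℕ) (N : ℤ) (m q : ℕ), Adm N → 0 < m → 56 ∣ m → N.natAbs ∣ m →
    Inert q → q % 4 = 3 → q ≠ 3 → ¬ q ∣ m →
    (∀ l : ℕ, l.Prime → (l : ℤ) ∣ N → l % 8 = 1 → IsSquare ((q : ℕ) : ZMod l)) →
    ∃ C : ℕ, ∀ r : ℕ, r.Coprime m → r % 8 = 1 → (r % 7 = 1 ∨ r % 7 = 2 ∨ r % 7 = 4) →
      (∀ l : ℕ, l.Prime → (l : ℤ) ∣ N → IsSquare ((r : ℕ) : ZMod l)) →
      ∃ M : ℤ, (M = N ∨ M = -(q * N)) ∧
        {n : ℕ | ∀ G : SimpleGraph (Fin k), ∃ p : Fin k → ℕ, StrictMono p ∧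
          (∀ i, (p i).Prime ∧ p i ≡ r [MOD m] ∧ n ≤ p i ∧ p i ≤ n + C) ∧
          (∀ i j, i ≠ j → (G.Adj i j ↔ ¬ IsSquare ((p j : ℕ) : ZMod (p i)))) ∧
          ∀ T : Finset (Fin k), M * ∏ i ∈ T, (p i : ℤ) ≠ 1 → Profile (M * ∏ i ∈ T, (p i : ℤ))
            ((N = 1 ∨ TwoPart (twist N)) ∧ (forest G T).det ≠ 0)}.Infinite := by
  intro k N m q hN hm h56 hNm hq hq4 hq3 hqm hqN
  obtain ⟨C, hC⟩ := Pool.Agent.R494.FG.primesG k m q 2 hm ((by norm_num : 4 ∣ 56).trans h56)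
    (by norm_num) hq.1 (by rintro rfl; omega) hqm
  refine ⟨C, fun r hr hr8 hr7 hrN => ?_⟩
  obtain ⟨s, hs⟩ := hC r hr (by omega) fun x => if 8 ∣ Pool.Agent.Y687.NN 1 x then 1 else 0
  have main : ∀ M : ℤ, (M = N ∨ M = -(q * N)) → (∀ x : ℕ,
      (if 8 ∣ Pool.Agent.Y687.NN 1 x then (1 : Fin 2) else 0) = s →
      (M = N ∧ ¬ 8 ∣ Pool.Agent.Y687.NN 1 x) ∨ (M = -(q * N) ∧ 8 ∣ Pool.Agent.Y687.NN 1 x)) →
      -(q * N) ≠ N →
      ∃ M : ℤ, (M = N ∨ M = -(q * N)) ∧
        {n : ℕ | ∀ G : SimpleGraph (Fin k), ∃ p : Fin k → ℕ, StrictMono p ∧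
          (∀ i, (p i).Prime ∧ p i ≡ r [MOD m] ∧ n ≤ p i ∧ p i ≤ n + C) ∧
          (∀ i j, i ≠ j → (G.Adj i j ↔ ¬ IsSquare ((p j : ℕ) : ZMod (p i)))) ∧
          ∀ T : Finset (Fin k), M * ∏ i ∈ T, (p i : ℤ) ≠ 1 → Profile (M * ∏ i ∈ T, (p i : ℤ))
            ((N = 1 ∨ TwoPart (twist N)) ∧ (forest G T).det ≠ 0)}.Infinite := by
    intro M hM hx hne
    refine ⟨M, hM, hs.mono fun n hn G => ?_⟩
    obtain ⟨p, hp, h3, h5⟩ := hn G
    refine ⟨p, hp, fun i => ⟨(h3 i).1, (h3 i).2.1, (h3 i).2.2.1, (h3 i).2.2.2.1⟩, h5, fun T h1 => ?_⟩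
    have hM' : (M = N ∧ ∀ i, ¬ 8 ∣ Pool.Agent.Y687.NN 1 (p i)) ∨
        (M = -(q * N) ∧ ∀ i, 8 ∣ Pool.Agent.Y687.NN 1 (p i)) := by
      rcases hM with h6 | h6
      · refine Or.inl ⟨h6, fun i => ?_⟩
        rcases hx (p i) (h3 i).2.2.2.2.1 with h7 | h7
        · exact h7.2
        · exact absurd (h7.1.symm.trans h6) hne
      · refine Or.inr ⟨h6, fun i => ?_⟩
        rcases hx (p i) (h3 i).2.2.2.2.1 with h7 | h7
        · exact absurd (h6.symm.trans h7.1) hne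
        · exact h7.2
    have hlN : ∀ l ∈ N.natAbs.primeFactors, l.Prime ∧ (l : ℤ) ∣ N := fun l hl =>
      ⟨Nat.prime_of_mem_primeFactors hl, Int.natCast_dvd.2 (Nat.dvd_of_mem_primeFactors hl)⟩
    obtain ⟨h6, h7⟩ := Pool.Agent.R494.FG.mat14 G T hp.injective (fun i => (h3 i).1) h56
      (fun i => (h3 i).2.1) hr8 hr7 h5 ((adm_iff N).1 hN) hNm hr
      (fun l hl => hrN l (hlN l hl).1 (hlN l hl).2) hq hq3 hq4 hqm
      (fun l hl => hqN l (hlN l (Finset.mem_filter.1 hl).1).1 (hlN l (Finset.mem_filter.1 hl).1).2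
        (Finset.mem_filter.1 hl).2) (fun i => (h3 i).2.2.2.2.2) hM'
    refine profile_of ((adm_iff _).2 h6) h1 ?_
    rw [h7, mul_ne_zero_iff, base_iff hN]
    exact Iff.rfl
  have hne : -(q * N) ≠ N := by
    intro h
    have h1 : (q + 1 : ℤ) * N = 0 := by linear_combination -h
    rcases mul_eq_zero.1 h1 with h2 | h2
    · have : (0 : ℤ) ≤ q := Int.natCast_nonneg q
      omega
    · exact hN.1.ne_zero h2
  by_cases h1 : s = 1
  · refine main (-(q * N)) (Or.inr rfl) (fun x hx => Or.inr ⟨rfl, ?_⟩) hne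
    by_contra h7
    rw [if_neg h7, h1] at hx
    exact absurd hx (by decide)
  · refine main N (Or.inl rfl) (fun x hx => Or.inl ⟨rfl, fun h7 => ?_⟩) hne
    rw [if_pos h7] at hx
    exact h1 hx.symm

end Pool.Agent.Results.MP_4a9ea6_nt.ResidueGraphTwistsX14
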