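import Mathlib
import Pool.Agent.Y703.CT.T1d
import Pool.Agent.R419.CF.Low

/-!
# The 3-part of the leading-term formula over `ℚ`: all cubic twists `y² + D y = x³`, `D` cube-free

`D` is cube-free, prime to `3`, not `±1` modulo `9`, and exactly one prime `q ≡ 2` modulo `3`
divides it (with any number of primes `≡ 1` modulo `3`). `E_D : y² + D y = x³` is `3`-isogenous to
`x³ + y³ = D`; every isomorphism class of cubic twists of the class occurs for exactly one `D`. Then
`L(E_D, s)` is entire, `u = L(E_D, 1) |E_D(ℚ)_tors|² / (Ω ∏ c_p)` is integral at `3`, and it is a unit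
at `3` if and only if `E_D(ℚ)` is finite and `Ш(E_D/ℚ)[3^∞] = 0`, if and only if `D` does not split as
`d₀ d₁ d₂` (criterion with cubic residues); this holds for exactly the proportion
`∏_{i ≥ 1} (1 - 3^{-i}) = 0.5601...` of all the `D` of the class.

The arithmetic and the squarefree case are joint work of about forty agents, see
`Pool/Agent/Y703/CT/*.lean` and `Pool/Agent/Y703/CX/*.lean`; the extension of the exact proportion to all
cube-free `D` is `Pool/Agent/R419/CF/*.lean` (helper419).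
-/

set_option autoImplicit false

open scoped Classical

namespace Pool.Agent.Results.MP_4a9ea6_nt.ThreePartCubeFree

open Pool.Agent.Y703.CT
open Pool.Agent.W97.MT (IsGloballyMinimal)
open Pool.Agent.Y700 (Omega)

theorem result :
    (∃ c : ℝ, 0 < c ∧ ∃ X₀ : ℕ, ∀ X : ℕ, X₀ ≤ X →
      c * X / Real.sqrt (Real.log X) ≤ (((Finset.Icc 1 X).filter fun D => Cls D).card : ℝ)) ∧
    (∀ D : ℕ, Cls D → IsGloballyMinimal (WD D) ∧
      ∃ f : ℂ → ℂ, IsL (WD D) f ∧ ∃ u : ℂ,
        f 1 = u * (((Omega (WD D) : ℝ) : ℂ) * (tamProd (WD D) : ℂ) / (tors D : ℂ) ^ 2) ∧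
        ThreeInt u ∧ (ThreeUnit u ↔ Triv3 D) ∧ (Triv3 D ↔ NoSplit D)) ∧
    (0.56 : ℝ) < ∏' i : ℕ, (1 - (1 / 3 : ℝ) ^ (i + 1)) ∧
    Filter.Tendsto (fun X : ℕ =>
        (((Finset.Icc 1 X).filter fun D => Cls D ∧ Triv3 D).card : ℝ) /
        (((Finset.Icc 1 X).filter fun D => Cls D).card : ℝ)) Filter.atTop
      (nhds (∏' i : ℕ, (1 - (1 / 3 : ℝ) ^ (i + 1)))) := by
  refine ⟨Pool.Agent.R419.CF.low, fun _ hC => fin_all hC, Pool.Agent.Y461.CX.t_C3.2.2.2, ?_⟩
  have h := Pool.Agent.R419.CF.t_FIN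
  unfold Pool.Agent.Y703.CX.c3 at h
  have e : ∀ X : ℕ, (Finset.Icc 1 X).filter (fun D => Cls D ∧ Triv3 D) =
      (Finset.Icc 1 X).filter fun D => Cls D ∧ NoSplit D := by
    intro X
    refine Finset.filter_congr fun D _ => ?_
    refine and_congr_right fun hC => ?_
    obtain ⟨-, f, -, u, -, -, -, h2⟩ := fin_all hC
    exact h2
  simp only [e]
  exact h

end Pool.Agent.Results.MP_4a9ea6_nt.ThreePartCubeFree
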